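import Mathlib
import Pool.Agent.H485R3.Hodge.Balance

/-!
# Linear independence of the imaginary parts of CM fields and integral relations
-/

set_option autoImplicit false

namespace Pool.Agent.U625.K3

open NumberField NumberField.IsCMField Pool.Agent.H485R3.Hodge

section core

variable {I : Type*} [Fintype I] {K : I → Type*} [∀ i, Field (K i)] [∀ i, NumberField (K i)]
  [∀ i, IsCMField (K i)] {L : Type*} [Field L] [Algebra ℚ L] [FiniteDimensional ℚ L]
  [IsGalois ℚ L] (c : L ≃ₐ[ℚ] L)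
  (hc : ∀ (i : I) (τ : K i →ₐ[ℚ] L) (z : K i), c (τ z) = τ (complexConj (K i) z))
  (s : ∀ i, K i →ₐ[ℚ] L)

include hc in
/-- If the imaginary parts of the fields are linearly independent, there are no relations. -/
theorem core_zero
    (hind : ∀ y : ∀ i, K i, (∀ i, complexConj (K i) (y i) = - y i) →
      ∑ i, s i (y i) = 0 → ∀ i, y i = 0)
    (F : ∀ i, (K i →ₐ[ℚ] L) → ℚ) (hodd : ∀ i τ, F i (act c τ) = - F i τ)
    (hsum : ∀ g : L ≃ₐ[ℚ] L, ∑ i, F i (act g (s i)) = 0) (i : I) (g : L ≃ₐ[ℚ] L) :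
    F i (act g (s i)) = 0 := by
  classical
  let Y : I → L → L := fun i θ => ∑ g : L ≃ₐ[ℚ] L, algebraMap ℚ L (F i (act g⁻¹ (s i))) * g θ
  have hshift : ∀ (i : I) (θ : L) (h : L ≃ₐ[ℚ] L), Y i θ =
      ∑ g : L ≃ₐ[ℚ] L, algebraMap ℚ L (F i (act g⁻¹ (act h⁻¹ (s i)))) * h (g θ) := by
    intro i θ h
    simp only [Y]
    rw [← Equiv.sum_comp (Equiv.mulLeft h)]
    refine Finset.sum_congr rfl fun g _ => ?_
    rw [Equiv.coe_mulLeft, mul_inv_rev, act_mul, AlgEquiv.mul_apply]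
  have happ : ∀ (i : I) (θ : L) (h : L ≃ₐ[ℚ] L), h (Y i θ) =
      ∑ g : L ≃ₐ[ℚ] L, algebraMap ℚ L (F i (act g⁻¹ (s i))) * h (g θ) := by
    intro i θ h
    simp only [Y]
    rw [map_sum]
    refine Finset.sum_congr rfl fun g _ => ?_
    rw [map_mul, AlgEquiv.commutes]
  have hfix : ∀ (i : I) (θ : L), Y i θ ∈ (s i).fieldRange := by
    intro i θ
    rw [← IsGalois.fixedField_fixingSubgroup (s i).fieldRange, IntermediateField.mem_fixedField_iff]
    intro h hh
    have hs : act h⁻¹ (s i) = s i := by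
      rw [act_inv_eq]
      ext z
      exact ((IntermediateField.mem_fixingSubgroup_iff _ _).1 hh _ ⟨z, rfl⟩).symm
    rw [happ, hshift i θ h, hs]
  choose η hη using hfix
  have hη' : ∀ i θ, s i (η i θ) = Y i θ := hη
  have hoddη : ∀ i θ, complexConj (K i) (η i θ) = - η i θ := by
    intro i θ
    apply (s i).toRingHom.injective
    change s i (complexConj (K i) (η i θ)) = s i (- η i θ)
    rw [← hc, map_neg, hη', happ, hshift i θ c, ← Finset.sum_neg_distrib]
    refine Finset.sum_congr rfl fun g _ => ?_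
    have h1 : act g⁻¹ (act c⁻¹ (s i)) = act c (act g⁻¹ (s i)) := by
      have h2 : act c⁻¹ (s i) = act c (s i) := by
        rw [act_inv_eq]
        ext z
        change s i z = c (c (s i z))
        rw [hc, hc, complexConj_apply_apply]
      rw [h2]
      ext z
      change g⁻¹ (c (s i z)) = c ((act g⁻¹ (s i)) z)
      rw [hc, hc]
      rfl
    rw [h1, hodd, map_neg, neg_mul, neg_neg]
  have hY0 : ∀ θ, ∑ i, Y i θ = 0 := by
    intro θ
    simp only [Y]
    rw [Finset.sum_comm]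
    refine Finset.sum_eq_zero fun g _ => ?_
    rw [← Finset.sum_mul, ← map_sum, hsum, map_zero, zero_mul]
  have hYz : ∀ i θ, Y i θ = 0 := by
    intro i θ
    rw [← hη', hind (fun i => η i θ) (fun i => hoddη i θ) (by simp only [hη']; exact hY0 θ) i,
      map_zero]
  have hli : LinearIndependent L (fun g : L ≃ₐ[ℚ] L => ((g : L →* L) : L → L)) :=
    (linearIndependent_monoidHom L L).comp (fun g : L ≃ₐ[ℚ] L => (g : L →* L)) (by
      intro g h hgh
      ext z
      exact DFunLike.congr_fun hgh z)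
  have h1 := Fintype.linearIndependent_iff.1 hli (fun g => algebraMap ℚ L (F i (act g⁻¹ (s i)))) (by
    funext θ
    rw [Finset.sum_apply]
    exact hYz i θ) g⁻¹
  rw [inv_inv] at h1
  exact (map_eq_zero _).1 h1

include hc in
/-- A linear relation between imaginary elements gives integral relations. -/
theorem core_exists (y : ∀ i, K i) (hy : ∀ i, complexConj (K i) (y i) = - y i)
    (hsum : ∑ i, s i (y i) = 0) (i₀ : I) (h0 : y i₀ ≠ 0) (w : I → ℕ) (hw : ∀ i, 0 < w i) :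
    ∃ F : ∀ i, (K i →ₐ[ℚ] L) → ℤ, (∀ i τ, F i (act c τ) = - F i τ) ∧
      (∀ g : L ≃ₐ[ℚ] L, ∑ i, (w i : ℤ) * F i (act g (s i)) = 0) ∧ F i₀ (s i₀) ≠ 0 := by
  classical
  have h1 : s i₀ (y i₀) ≠ 0 := (map_ne_zero _).2 h0
  obtain ⟨T, hT⟩ : ∃ T : Module.Dual ℚ L, T (s i₀ (y i₀)) ≠ 0 := by
    by_contra h
    push Not at h
    exact h1 ((Module.forall_dual_apply_eq_zero_iff ℚ _).1 h)
  let f : (Σ i, K i →ₐ[ℚ] L) → ℚ := fun b => T (b.2 (y b.1)) / w b.1
  obtain ⟨D, hD⟩ := IsLocalization.exist_integer_multiples_of_finite (nonZeroDivisors ℤ) f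
  choose F hF using fun b => hD b
  have hD0 : ((D : ℤ) : ℚ) ≠ 0 := by
    have := nonZeroDivisors.ne_zero D.2
    exact_mod_cast this
  have hF' : ∀ i (τ : K i →ₐ[ℚ] L), ((F ⟨i, τ⟩ : ℤ) : ℚ) = (D : ℤ) * (T (τ (y i)) / w i) := by
    intro i τ
    have h2 := hF ⟨i, τ⟩
    rw [eq_intCast, zsmul_eq_mul] at h2
    exact h2
  have hw0 : ∀ i, (w i : ℚ) ≠ 0 := fun i => by exact_mod_cast (hw i).ne'
  refine ⟨fun i τ => F ⟨i, τ⟩, ?_, ?_, ?_⟩
  · intro i τ
    have h2 : ((F ⟨i, act c τ⟩ : ℤ) : ℚ) = ((- F ⟨i, τ⟩ : ℤ) : ℚ) := by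
      push_cast
      rw [hF', hF', act_apply, hc, hy, map_neg, map_neg]
      ring
    exact_mod_cast h2
  · intro g
    have h2 : ((∑ i, (w i : ℤ) * F ⟨i, act g (s i)⟩ : ℤ) : ℚ) = 0 := by
      push_cast
      have h3 : ∀ i, (w i : ℚ) * (F ⟨i, act g (s i)⟩ : ℚ) = (D : ℤ) * T (g (s i (y i))) := by
        intro i
        rw [hF', act_apply]
        have := hw0 i
        field_simp
      rw [Finset.sum_congr rfl (fun i _ => h3 i), ← Finset.mul_sum, ← map_sum, ← map_sum, hsum,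
        map_zero, map_zero, mul_zero]
    exact_mod_cast h2
  · intro h2
    have h3 := hF' i₀ (s i₀)
    change F ⟨i₀, s i₀⟩ = 0 at h2
    rw [h2, Int.cast_zero] at h3
    rcases mul_eq_zero.1 h3.symm with h4 | h4
    · exact hD0 h4
    · rcases div_eq_zero_iff.1 h4 with h5 | h5
      · exact hT h5
      · exact hw0 i₀ h5

end core

end Pool.Agent.U625.K3
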