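import Mathlib
import Pool.Agent.U625.K3.Core
import Pool.Agent.H485R3.Exact.ExoticMain
import Pool.Agent.H485R3.DomMain

/-!
# Products of Weil numbers of K3 type: independent imaginary parts
-/

set_option autoImplicit false

namespace Pool.Agent.U625.K3

open NumberField NumberField.IsCMField Pool.Agent.H485R3 Pool.Agent.H485R3.Hodge
  Pool.Agent.H485R3.Exact Pool.Agent.H925R2 Polynomial

theorem exists_act {K L : Type*} [Field K] [NumberField K] [Field L] [Algebra ℚ L] [Normal ℚ L]
    (ρ ρ' : K →ₐ[ℚ] L) : ∃ g : L ≃ₐ[ℚ] L, act g ρ = ρ' := by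
  let pb : PowerBasis ℚ K := Field.powerBasisOfFiniteOfSeparable ℚ K
  have hint : IsIntegral ℚ pb.gen := pb.isIntegral_gen
  have hirr : Irreducible (minpoly ℚ pb.gen) := minpoly.irreducible hint
  have h1 : aeval (ρ pb.gen) (minpoly ℚ pb.gen) = 0 := by
    rw [aeval_algHom_apply, minpoly.aeval, map_zero]
  have h2 : aeval (ρ' pb.gen) (minpoly ℚ pb.gen) = 0 := by
    rw [aeval_algHom_apply, minpoly.aeval, map_zero]
  obtain ⟨g, hg⟩ := exists_gal_root hirr h1 h2
  exact ⟨g, pb.algHom_ext hg⟩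

theorem root_minpoly {K : Type*} [Field K] [NumberField K] {A : Type*} [Field A] [Algebra ℚ A]
    [IsAlgClosed A] (π : K) (α : A) (hα : aeval α (minpoly ℚ π) = 0) :
    ∃ φ : K →+* A, φ π = α := by
  have h1 : α ∈ (minpoly ℚ π).rootSet A :=
    mem_rootSet.2 ⟨minpoly.ne_zero (Algebra.IsIntegral.isIntegral π), hα⟩
  rw [← NumberField.Embeddings.range_eval_eq_rootSet_minpoly K A π] at h1
  exact h1

theorem minpoly_root {K : Type*} [Field K] [NumberField K] {A : Type*} [Field A] [Algebra ℚ A]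
    (π : K) (φ : K →+* A) : aeval (φ π) (minpoly ℚ π) = 0 := by
  have h1 : aeval (φ.toRatAlgHom π) (minpoly ℚ π) = 0 := by
    rw [aeval_algHom_apply, minpoly.aeval, map_zero]
  exact h1

theorem dev_eq_ldev (p : ℕ) [Fact p.Prime] (a : ℕ) (α : PadicAlgCl p) :
    dev p ((p : ℚ) ^ a) α = ldev p a α := by
  unfold dev ldev
  rw [norm_pow_cast, Real.log_inv, Real.log_pow]
  ring

section one

variable {K : Type*} [Field K] [NumberField K] [IsCMField K] (p : ℕ) [Fact p.Prime] (a : ℕ)
  (x : K →+* ℚ_[p]) (π : K) {L : Type*} [Field L] [Algebra ℚ L]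
  (e₀ : L →ₐ[ℚ] PadicAlgCl p) (c : L ≃ₐ[ℚ] L)
  (hcs : ∀ (τ : K →ₐ[ℚ] L) (z : K), c (τ z) = τ (complexConj K z))
  (s : K →ₐ[ℚ] L) (hs : ∀ z, e₀ (s z) = algebraMap ℚ_[p] (PadicAlgCl p) (x z))

include hcs hs in
/-- a Weil number of K3 type generates its field -/
theorem emb_inj [Normal ℚ L] (hK : IsK3Type p a x π) (τ τ' : K →ₐ[ℚ] L) (h : τ π = τ' π) :
    τ = τ' := by
  classical
  obtain ⟨m, hm0, hm⟩ := exists_m p a x π hK
  obtain ⟨g, hg⟩ := exists_act τ s
  have h1 := ldev_comp p a x π hK e₀ c hcs s hs _ hm (act g τ')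
  have h2 : act g τ' π = s π := by
    rw [← hg, act_apply, act_apply, h]
  have hlog : 0 < Real.log p :=
    Real.log_pos (by exact_mod_cast (Fact.out : p.Prime).one_lt)
  have hpos : 0 < (m : ℝ) * Real.log p := mul_pos (by exact_mod_cast hm0) hlog
  rw [h2, hs, hm] at h1
  have h3 : act g τ' = act 1 s := by
    by_contra h4
    rw [if_neg h4] at h1
    split_ifs at h1 <;> linarith
  have h4 : act g τ' = act g τ := h3.trans hg.symm
  rw [← act_inv_act g τ, ← h4, act_inv_act]

end one

theorem generate_of_independent {I : Type} [Fintype I] {K : I → Type} [∀ i, Field (K i)]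
    [∀ i, NumberField (K i)] [∀ i, IsCMField (K i)] (p : ℕ) [Fact p.Prime]
    (x : ∀ i, K i →+* ℚ_[p]) (a : I → ℕ) (π : ∀ i, K i)
    (hπ : ∀ i, IsK3Type p (a i) (x i) (π i))
    (hind : ∀ y : ∀ i, K i, (∀ i, complexConj (K i) (y i) = - y i) →
      ∑ i, x i (y i) = 0 → ∀ i, y i = 0) :
    PairingsGenerate π (fun i => p ^ a i) := by
  classical
  intro Ω _ _ _ V _ _ _ F hF n t s hs c hc φ hφ
  have hp : p.Prime := Fact.out
  have hlog : 0 < Real.log p := Real.log_pos (by exact_mod_cast hp.one_lt)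
  choose m hm0 hm using fun i => exists_m p (a i) (x i) (π i) (hπ i)
  obtain ⟨L, _, _, _, _, hlift⟩ := exists_common' K
  let e₀ : L →ₐ[ℚ] PadicAlgCl p := IsAlgClosed.lift
  let ι : L →ₐ[ℚ] ℂ := IsAlgClosed.lift
  let j : L →ₐ[ℚ] Ω := IsAlgClosed.lift
  let x' : ∀ i, K i →ₐ[ℚ] PadicAlgCl p := fun i =>
    ((algebraMap ℚ_[p] (PadicAlgCl p)).comp (x i)).toRatAlgHom
  choose s' hs' using fun i => hlift e₀ i (x' i)
  have hsx : ∀ i z, e₀ (s' i z) = algebraMap ℚ_[p] (PadicAlgCl p) (x i z) := fun i z =>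
    DFunLike.congr_fun (hs' i) z
  obtain ⟨cc, hcc⟩ := exists_conj ι
  have hcs : ∀ (i : I) (τ : K i →ₐ[ℚ] L) (z : K i), cc (τ z) = τ (complexConj (K i) z) := by
    intro i τ z
    apply ι.toRingHom.injective
    change ι (cc (τ z)) = (ι.comp τ) (complexConj (K i) z)
    rw [← hcc, ← conjEmb_eq]
    rfl
  have hcact : ∀ (i : I) (τ : K i →ₐ[ℚ] L), act cc (act cc τ) = τ := by
    intro i τ
    ext z
    change cc (cc (τ z)) = τ z
    rw [hcs, hcs, complexConj_apply_apply]
  have hpa : ∀ i, π i * complexConj (K i) (π i) = (p : K i) ^ a i := fun i =>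
    mul_conj_eq p (π i) (a i) (hπ i).2.1
  have hπ0 : ∀ i, π i ≠ 0 := by
    intro i h0
    have h1 := hpa i
    rw [h0, zero_mul] at h1
    exact pow_ne_zero _ (by exact_mod_cast hp.ne_zero) h1.symm
  have hconj : ∀ i, complexConj (K i) (π i) ≠ π i := by
    intro i h
    have h1 := ldev_conj p (a i) (x' i (π i)) (x' i (complexConj (K i) (π i))) (by
      rw [← map_mul, hpa, map_pow, map_natCast])
    have h2 : ldev p (a i) (x' i (π i)) = m i * Real.log p := hm i
    rw [h] at h1
    have h3 : (0 : ℝ) < m i := by exact_mod_cast hm0 i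
    have h4 : 0 < (m i : ℝ) * Real.log p := mul_pos h3 hlog
    linarith
  -- the conjugate root
  have hdiv : ∀ i (ψ : K i →+* Ω), ((p ^ a i : ℕ) : Ω) / ψ (π i) = ψ (complexConj (K i) (π i)) := by
    intro i ψ
    rw [div_eq_iff ((_root_.map_ne_zero _).2 (hπ0 i)), ← map_mul, mul_comm, hpa, map_pow,
      map_natCast]
    push_cast
    rfl
  refine multilinear_mixed V F (fun i => ((p ^ a i : ℕ) : Ω))
    (fun i => {μ : Ω | aeval μ (minpoly ℚ (π i)) = 0}) ?_ ?_ ?_ ?_ t s c ?_ φ hφ
  · intro i y hy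
    obtain ⟨ψ, rfl⟩ := root_minpoly (π i) y hy
    refine ⟨(_root_.map_ne_zero _).2 (hπ0 i), fun h => hconj i (ψ.injective ?_)⟩
    rw [← hdiv, h]
  · intro i
    exact_mod_cast pow_ne_zero _ hp.ne_zero
  · intro i
    rw [eq_top_iff, ← hF i]
    apply Submodule.span_mono
    rintro v ⟨σ, hσ⟩
    exact ⟨σ (π i), minpoly_root (π i) σ, hσ⟩
  · intro i y hy
    obtain ⟨ψ, rfl⟩ := root_minpoly (π i) y hy
    rw [hdiv]
    exact minpoly_root (π i) (ψ.comp (complexConj (K i) : K i →+* K i))
  · intro y hy hprod i z hz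
    choose ψ hψ using fun k => root_minpoly (π (t k)) (y k) (hy k)
    choose ρ hρ using fun k => hlift j (t k) ((ψ k).toRatAlgHom)
    have hρ' : ∀ k, j (ρ k (π (t k))) = y k := fun k => by
      rw [← hψ k]
      exact DFunLike.congr_fun (hρ k) _
    let W : Fin n → L := fun k => ρ k (π (t k))
    have hW : ∀ k, W k ≠ 0 := fun k => (_root_.map_ne_zero _).2 (hπ0 _)
    have hrel : (∏ k, W k) ^ (2 * s) = (∏ k, (((p : ℚ) ^ a (t k) : ℚ) : L)) ^ s := by
      apply j.toRingHom.injective
      change j ((∏ k, W k) ^ (2 * s)) = j ((∏ k, (((p : ℚ) ^ a (t k) : ℚ) : L)) ^ s)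
      rw [map_pow, map_prod, map_pow, map_prod]
      simp only [W, hρ', map_ratCast]
      rw [mul_comm 2 s, pow_mul, hprod]
      have h1 : ∏ k, ((((p : ℚ) ^ a (t k) : ℚ)) : Ω) = c ^ 2 := by
        rw [hc]
        refine Finset.prod_congr rfl fun k _ => ?_
        push_cast
        rfl
      rw [h1, ← pow_mul, ← pow_mul, mul_comm]
    have hsumg : ∀ g : L ≃ₐ[ℚ] L, ∑ k, ldev p (a (t k)) (e₀ (g (W k))) = 0 := by
      intro g
      have h1 := sum_dev p t (fun i => (p : ℚ) ^ a i) (fun i => pow_pos (by exact_mod_cast hp.pos) _)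
        W hW s hs hrel (e₀.comp (g : L →ₐ[ℚ] L))
      simp only [dev_eq_ldev] at h1
      exact h1
    let N : ∀ i, (K i →ₐ[ℚ] L) → ℚ := fun i τ =>
      ((Finset.univ.filter (fun k => t k = i ∧ W k = τ (π i))).card : ℚ)
    have hsum : ∀ g : L ≃ₐ[ℚ] L,
        ∑ i, (m i : ℚ) * (N i (act g (s' i)) - N i (act cc (act g (s' i)))) = 0 := by
      intro g
      have h1 := hsumg g⁻¹
      have h2 : ∀ k, ldev p (a (t k)) (e₀ (g⁻¹ (W k))) = (m (t k) * Real.log p) *
          ((if W k = act g (s' (t k)) (π (t k)) then 1 else 0) -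
            (if W k = act cc (act g (s' (t k))) (π (t k)) then 1 else 0)) := by
        intro k
        have h3 := ldev_comp p (a (t k)) (x (t k)) (π (t k)) (hπ (t k)) e₀ cc (hcs (t k))
          (s' (t k)) (hsx (t k)) _ (hm (t k)) (act g⁻¹ (ρ k))
        have h4 : act g⁻¹ (ρ k) = act 1 (s' (t k)) ↔ W k = act g (s' (t k)) (π (t k)) := by
          rw [act_inv_eq]
          constructor
          · intro h
            change ρ k (π (t k)) = _
            rw [h]
            rfl
          · intro h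
            exact emb_inj p (a (t k)) (x (t k)) (π (t k)) e₀ cc (hcs (t k)) (s' (t k)) (hsx (t k))
              (hπ (t k)) _ _ h
        have h5 : act g⁻¹ (ρ k) = act cc (s' (t k)) ↔
            W k = act cc (act g (s' (t k))) (π (t k)) := by
          have h6 : act g (act cc (s' (t k))) = act cc (act g (s' (t k))) := by
            ext z
            change g (cc (s' (t k) z)) = cc (act g (s' (t k)) z)
            rw [hcs, hcs]
            rfl
          rw [act_inv_eq, h6]
          constructor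
          · intro h
            change ρ k (π (t k)) = _
            rw [h]
          · intro h
            exact emb_inj p (a (t k)) (x (t k)) (π (t k)) e₀ cc (hcs (t k)) (s' (t k)) (hsx (t k))
              (hπ (t k)) _ _ h
        simp only [h4, h5] at h3
        exact h3
      rw [Finset.sum_congr rfl (fun k _ => h2 k)] at h1
      rw [← Finset.sum_fiberwise Finset.univ t] at h1
      have h7 : ∀ i, ∑ k with t k = i, ((m (t k) * Real.log p) *
          ((if W k = act g (s' (t k)) (π (t k)) then (1 : ℝ) else 0) -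
            (if W k = act cc (act g (s' (t k))) (π (t k)) then 1 else 0))) =
          Real.log p * (((m i : ℚ) * (N i (act g (s' i)) - N i (act cc (act g (s' i)))) : ℚ) : ℝ) := by
        intro i
        have h8 : ∀ k ∈ Finset.univ.filter (fun k => t k = i), ((m (t k) * Real.log p) *
          ((if W k = act g (s' (t k)) (π (t k)) then (1 : ℝ) else 0) -
            (if W k = act cc (act g (s' (t k))) (π (t k)) then 1 else 0))) =
            ((m i * Real.log p) *
          ((if W k = act g (s' i) (π i) then (1 : ℝ) else 0) -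
            (if W k = act cc (act g (s' i)) (π i) then 1 else 0))) := by
          intro k hk
          have h9 := (Finset.mem_filter.1 hk).2
          subst h9
          rfl
        rw [Finset.sum_congr rfl h8, ← Finset.mul_sum, Finset.sum_sub_distrib,
          Finset.sum_ite, Finset.sum_ite]
        simp only [Finset.sum_const_zero, add_zero, Finset.sum_const, nsmul_eq_mul, mul_one,
          Finset.filter_filter]
        simp only [N]
        push_cast
        ring
      rw [Finset.sum_congr rfl (fun i _ => h7 i), ← Finset.mul_sum] at h1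
      have h8 := (mul_eq_zero.1 h1).resolve_left hlog.ne'
      exact_mod_cast h8
    have hN : ∀ i (τ : K i →ₐ[ℚ] L), N i τ = N i (act cc τ) := by
      intro i τ
      obtain ⟨g, hg⟩ := exists_act (s' i) τ
      have h1 := core_zero cc hcs s' (by
        intro y hy hy0
        refine hind y hy ?_
        apply (algebraMap ℚ_[p] (PadicAlgCl p)).injective
        rw [map_sum, map_zero]
        have h2 := congrArg e₀ hy0
        rw [map_sum, map_zero] at h2
        rw [← h2]
        exact Finset.sum_congr rfl fun i _ => (hsx i (y i)).symm)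
        (fun i τ => (m i : ℚ) * (N i τ - N i (act cc τ))) (by
          intro i τ
          rw [hcact]
          ring) hsum i g
      rw [hg] at h1
      have h2 : (m i : ℚ) ≠ 0 := by exact_mod_cast (hm0 i).ne'
      have h3 := (mul_eq_zero.1 h1).resolve_left h2
      linarith
    obtain ⟨ψz, hψz⟩ := root_minpoly (π i) z hz
    obtain ⟨τ, hτ⟩ := hlift j i ψz.toRatAlgHom
    have hτz : j (τ (π i)) = z := by
      rw [← hψz]
      exact DFunLike.congr_fun hτ _
    have hτz' : j (act cc τ (π i)) = ((p ^ a i : ℕ) : Ω) / z := by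
      rw [← hψz, hdiv, act_apply, hcs]
      exact DFunLike.congr_fun hτ _
    have hcard : ∀ w : L, Nat.card {k // t k = i ∧ y k = j w} =
        (Finset.univ.filter (fun k => t k = i ∧ W k = w)).card := by
      intro w
      rw [Nat.card_eq_fintype_card, Fintype.card_subtype]
      congr 1
      ext k
      simp only [Finset.mem_filter, Finset.mem_univ, true_and]
      rw [← hρ' k]
      constructor
      · rintro ⟨h1, h2⟩
        exact ⟨h1, j.toRingHom.injective h2⟩
      · rintro ⟨h1, h2⟩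
        exact ⟨h1, congrArg j h2⟩
    change Nat.card {k // t k = i ∧ y k = z} = Nat.card {k // t k = i ∧ y k = ((p ^ a i : ℕ) : Ω) / z}
    rw [← hτz', ← hτz, hcard, hcard]
    have h1 := hN i τ
    simp only [N] at h1
    exact_mod_cast h1

/-- Relations of imaginary elements give Tate classes that are not generated by pairings. -/
theorem independent_of_generate {I : Type} [Fintype I] {K : I → Type} [∀ i, Field (K i)]
    [∀ i, NumberField (K i)] [∀ i, IsCMField (K i)] (p : ℕ) [Fact p.Prime]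
    (x : ∀ i, K i →+* ℚ_[p]) (a : I → ℕ) (π : ∀ i, K i)
    (hπ : ∀ i, IsK3Type p (a i) (x i) (π i)) (hgen : PairingsGenerate π (fun i => p ^ a i))
    (y : ∀ i, K i) (hy : ∀ i, complexConj (K i) (y i) = - y i) (hy0 : ∑ i, x i (y i) = 0) :
    ∀ i, y i = 0 := by
  classical
  by_contra hcon
  obtain ⟨i₀, hi₀⟩ := not_forall.1 hcon
  have hp : p.Prime := Fact.out
  have hppos : (0 : ℝ) < p := by exact_mod_cast hp.pos
  obtain ⟨L, _, _, _, _, hlift⟩ := exists_common' K
  let e₀ : L →ₐ[ℚ] PadicAlgCl p := IsAlgClosed.lift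
  let ι : L →ₐ[ℚ] ℂ := IsAlgClosed.lift
  let x' : ∀ i, K i →ₐ[ℚ] PadicAlgCl p := fun i =>
    ((algebraMap ℚ_[p] (PadicAlgCl p)).comp (x i)).toRatAlgHom
  choose s hs using fun i => hlift e₀ i (x' i)
  have hsx : ∀ i z, e₀ (s i z) = algebraMap ℚ_[p] (PadicAlgCl p) (x i z) := fun i z =>
    DFunLike.congr_fun (hs i) z
  obtain ⟨c, hc⟩ := exists_conj ι
  have hcs : ∀ (i : I) (τ : K i →ₐ[ℚ] L) (z : K i), c (τ z) = τ (complexConj (K i) z) := by
    intro i τ z
    apply ι.toRingHom.injective
    change ι (c (τ z)) = (ι.comp τ) (complexConj (K i) z)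
    rw [← hc, ← conjEmb_eq]
    rfl
  choose w hw hwd using fun i => exists_m p (a i) (x i) (π i) (hπ i)
  have hsum0 : ∑ i, s i (y i) = 0 := by
    apply e₀.toRingHom.injective
    change e₀ (∑ i, s i (y i)) = e₀ 0
    rw [map_sum, map_zero, Finset.sum_congr rfl (fun i _ => hsx i (y i)), ← map_sum, hy0, map_zero]
  obtain ⟨F₀, hodd, hrel, hne⟩ := core_exists c hcs s y hy hsum0 i₀ hi₀ w hw
  let κ := Σ b : (Σ i, K i →ₐ[ℚ] L), Fin (F₀ b.1 b.2).toNat
  let T : κ → I := fun k => k.1.1
  let σκ : ∀ k : κ, K (T k) →ₐ[ℚ] L := fun k => k.1.2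
  let n := Fintype.card κ
  let e : Fin n ≃ κ := (Fintype.equivFin κ).symm
  let D : ∀ i, (K i →ₐ[ℚ] L) → ℝ := fun i τ => ldev p (a i) (e₀ (τ (π i)))
  have hcg : ∀ (i : I) (g : L ≃ₐ[ℚ] L), act g (act c (s i)) = act c (act g (s i)) := by
    intro i g
    ext z
    change g (c (s i z)) = c (act g (s i) z)
    rw [hcs, hcs]
    rfl
  have hpos : ∀ k : κ, 0 < F₀ (T k) (σκ k) := by
    rintro ⟨b, j⟩
    have h1 := j.pos
    change 0 < F₀ b.1 b.2
    omega
  obtain ⟨k₁⟩ : Nonempty κ := by
    rcases lt_or_gt_of_ne hne with h | h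
    · refine ⟨⟨⟨i₀, act c (s i₀)⟩, ⟨0, ?_⟩⟩⟩
      change 0 < (F₀ i₀ (act c (s i₀))).toNat
      rw [hodd]
      omega
    · refine ⟨⟨⟨i₀, s i₀⟩, ⟨0, ?_⟩⟩⟩
      change 0 < (F₀ i₀ (s i₀)).toNat
      omega
  -- the balance at all places over `p`
  have hbal : ∀ g : L ≃ₐ[ℚ] L, ∑ k, D (T (e k)) (act g (σκ (e k))) = 0 := by
    intro g
    rw [Equiv.sum_comp e (fun k => D (T k) (act g (σκ k))), Fintype.sum_sigma, Fintype.sum_sigma]
    have h1 : ∀ i, ∑ τ : K i →ₐ[ℚ] L, ∑ _j : Fin (F₀ i τ).toNat, D i (act g τ) =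
        Real.log p * (((w i : ℤ) * F₀ i (act g⁻¹ (s i)) : ℤ) : ℝ) := by
      intro i
      simp only [Finset.sum_const, Finset.card_univ, Fintype.card_fin, nsmul_eq_mul]
      have h2 : ∀ τ : K i →ₐ[ℚ] L, ((F₀ i τ).toNat : ℝ) * D i (act g τ) =
          (w i * Real.log p) * ((if τ = act g⁻¹ (s i) then ((F₀ i τ).toNat : ℝ) else 0) -
            (if τ = act c (act g⁻¹ (s i)) then ((F₀ i τ).toNat : ℝ) else 0)) := by
        intro τ
        have h3 := ldev_comp p (a i) (x i) (π i) (hπ i) e₀ c (hcs i) (s i) (hsx i) _ (hwd i)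
          (act g τ)
        have h4 : act g τ = act 1 (s i) ↔ τ = act g⁻¹ (s i) := by
          constructor
          · intro h
            rw [← act_inv_act g τ, h]
            rfl
          · intro h
            rw [h, act_act_inv]
            rfl
        have h5 : act g τ = act c (s i) ↔ τ = act c (act g⁻¹ (s i)) := by
          rw [← hcg]
          constructor
          · intro h
            rw [← act_inv_act g τ, h]
          · intro h
            rw [h, act_act_inv]
        simp only [h4, h5] at h3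
        change ((F₀ i τ).toNat : ℝ) * ldev p (a i) (e₀ (act g τ (π i))) = _
        rw [h3]
        split_ifs <;> ring
      rw [Finset.sum_congr rfl (fun τ _ => h2 τ), ← Finset.mul_sum, Finset.sum_sub_distrib,
        Finset.sum_ite_eq' Finset.univ, Finset.sum_ite_eq' Finset.univ, if_pos (Finset.mem_univ _),
        if_pos (Finset.mem_univ _), hodd]
      have h3 : (((F₀ i (act g⁻¹ (s i))).toNat : ℤ) : ℝ) -
          (((- F₀ i (act g⁻¹ (s i))).toNat : ℤ) : ℝ) = ((F₀ i (act g⁻¹ (s i)) : ℤ) : ℝ) := by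
        rw [← Int.cast_sub, Int.toNat_sub_toNat_neg]
      rw [Int.cast_natCast, Int.cast_natCast] at h3
      rw [h3]
      push_cast
      ring
    change ∑ i, ∑ τ : K i →ₐ[ℚ] L, ∑ _j : Fin (F₀ i τ).toNat, D i (act g τ) = 0
    rw [Finset.sum_congr rfl (fun i _ => h1 i), ← Finset.mul_sum, ← Int.cast_sum, hrel g⁻¹]
    simp
  -- the multiplicative relation
  let N : L := ∏ k, σκ (e k) (π (T (e k)))
  let Q : ℕ := ∏ k, p ^ a (T (e k))
  have hQ0 : Q ≠ 0 := Finset.prod_ne_zero_iff.2 fun k _ => pow_ne_zero _ hp.ne_zero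
  have hpa : ∀ i, π i * complexConj (K i) (π i) = (p : K i) ^ a i := fun i =>
    mul_conj_eq p (π i) (a i) (hπ i).2.1
  have hπ0 : ∀ i, π i ≠ 0 := by
    intro i h0
    have h1 := hpa i
    rw [h0, zero_mul] at h1
    exact pow_ne_zero _ (by exact_mod_cast hp.ne_zero) h1.symm
  have hN0 : N ≠ 0 := Finset.prod_ne_zero_iff.2 fun k _ => (_root_.map_ne_zero _).2 (hπ0 _)
  obtain ⟨r, hr, hξ⟩ : ∃ r : ℕ, 0 < r ∧ (N ^ 2 / (Q : L)) ^ r = 1 := by
    apply root_of_unity
    · intro l _ el
      rw [map_div₀, map_pow, map_natCast, norm_div, norm_pow]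
      by_cases hl : l = p
      · subst hl
        obtain ⟨g, hg⟩ := exists_gal e₀ el
        have h1 := hbal g
        have hNpos : 0 < ‖el N‖ := norm_pos_iff.2 ((_root_.map_ne_zero _).2 hN0)
        have hQpos : 0 < ‖(Q : PadicAlgCl l)‖ := norm_pos_iff.2 (by exact_mod_cast hQ0)
        have h2 : Real.log ‖el N‖ = ∑ k, Real.log ‖e₀ (act g (σκ (e k)) (π (T (e k))))‖ := by
          rw [← Real.log_prod]
          · simp only [N]
            rw [map_prod, norm_prod]
            congr 1
            exact Finset.prod_congr rfl fun k _ => by rw [hg]; rfl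
          · intro k _
            exact norm_ne_zero_iff.2 ((_root_.map_ne_zero _).2 ((_root_.map_ne_zero _).2 (hπ0 _)))
        have h3 : Real.log ‖(Q : PadicAlgCl l)‖ = - ∑ k, (a (T (e k)) : ℝ) * Real.log l := by
          simp only [Q]
          push_cast
          rw [norm_prod, Real.log_prod]
          · rw [← Finset.sum_neg_distrib]
            refine Finset.sum_congr rfl fun k _ => ?_
            rw [norm_pow, Real.log_pow, norm_p_padic, Real.log_inv]
            ring
          · intro k _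
            rw [norm_pow, norm_p_padic]
            positivity
        have h4 : Real.log (‖el N‖ ^ 2 / ‖(Q : PadicAlgCl l)‖) = 0 := by
          rw [Real.log_div (by positivity) hQpos.ne', Real.log_pow, h2, h3]
          simp only [D, ldev] at h1
          rw [Finset.sum_add_distrib, ← Finset.mul_sum] at h1
          push_cast
          linarith
        have h5 : ‖el N‖ ^ 2 / ‖(Q : PadicAlgCl l)‖ = 1 := by
          have h6 : 0 < ‖el N‖ ^ 2 / ‖(Q : PadicAlgCl l)‖ := by positivity
          exact Real.eq_one_of_pos_of_log_eq_zero h6 h4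
        exact h5.le
      · have h1 : ‖el N‖ = 1 := by
          simp only [N]
          rw [map_prod, norm_prod]
          refine Finset.prod_eq_one fun k _ => ?_
          exact norm_eq_one_of_ne p (a (T (e k))) (π (T (e k))) (hπ _).1 (hπ _).2.1 l hl
            (el.toRingHom.comp (σκ (e k)).toRingHom)
        have h2 : ‖(Q : PadicAlgCl l)‖ = 1 := by
          simp only [Q]
          push_cast
          rw [norm_prod]
          refine Finset.prod_eq_one fun k _ => ?_
          have h4 : (p : PadicAlgCl l) = algebraMap ℚ_[l] (PadicAlgCl l) (p : ℚ_[l]) := by simp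
          rw [norm_pow, h4, PadicAlgCl.norm_extends]
          have h5 : ‖(p : ℚ_[l])‖ = 1 := by
            rw [Padic.norm_natCast_eq_one_iff]
            exact (Nat.coprime_primes (Fact.out : l.Prime) (Fact.out : p.Prime)).2 hl
          rw [h5, one_pow]
        rw [h1, h2]
        norm_num
    · intro φ
      rw [map_div₀, map_pow, map_natCast, norm_div, norm_pow]
      have h1 : ‖φ N‖ ^ 2 = Q := by
        simp only [N, Q]
        rw [map_prod, norm_prod, ← Finset.prod_pow]
        push_cast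
        refine Finset.prod_congr rfl fun k _ => ?_
        exact (hπ (T (e k))).2.1 (φ.toRingHom.comp (σκ (e k)).toRingHom)
      rw [h1, Complex.norm_natCast, div_self]
      exact_mod_cast hQ0
  -- the Tate class
  obtain ⟨c₀, hc₀⟩ : ∃ c₀ : ℂ, c₀ ^ 2 = (Q : ℂ) := IsAlgClosed.exists_pow_nat_eq _ two_pos
  have hc₀0 : c₀ ≠ 0 := by
    rintro rfl
    rw [zero_pow two_ne_zero] at hc₀
    exact hQ0 (by exact_mod_cast hc₀.symm)
  have hNc : (ι N) ^ (2 * r) = c₀ ^ (2 * r) := by
    have h1 := congrArg ι hξ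
    rw [map_pow, map_div₀, map_pow, map_natCast, map_one, div_pow, ← hc₀, ← pow_mul,
      ← pow_mul] at h1
    exact (div_eq_one_iff_eq (pow_ne_zero _ hc₀0)).1 h1
  let V : I → Type := fun i => (K i →+* ℂ) → ℂ
  let F : ∀ i, V i →ₗ[ℂ] V i := fun i => LinearMap.pi fun σ => (σ (π i)) • LinearMap.proj σ
  have hFapp : ∀ i (v : V i) (σ : K i →+* ℂ), F i v σ = σ (π i) * v σ := fun i v σ => rfl
  have hFpow : ∀ i (m : ℕ) (v : V i) (σ : K i →+* ℂ), (F i ^ m) v σ = σ (π i) ^ m * v σ := by
    intro i m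
    induction m with
    | zero =>
      intro v σ
      rw [pow_zero, pow_zero, one_mul]
      rfl
    | succ m ih =>
      intro v σ
      rw [pow_succ, Module.End.mul_apply, ih, hFapp, pow_succ]
      ring
  have hFspan : ∀ i, Submodule.span ℂ {v : V i | ∃ σ : K i →+* ℂ, F i v = σ (π i) • v} = ⊤ := by
    intro i
    rw [eq_top_iff]
    intro v _
    have h1 : v = ∑ σ : K i →+* ℂ, v σ • (Pi.single σ (1 : ℂ) : V i) := by
      funext τ
      rw [Finset.sum_apply, Finset.sum_eq_single τ]
      · simp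
      · intro b _ hb
        simp [Pi.single_eq_of_ne (Ne.symm hb)]
      · intro h
        exact absurd (Finset.mem_univ _) h
    rw [h1]
    refine Submodule.sum_mem _ fun σ _ => Submodule.smul_mem _ _ (Submodule.subset_span ⟨σ, ?_⟩)
    funext τ
    rw [hFapp, Pi.smul_apply, smul_eq_mul]
    by_cases h2 : τ = σ
    · rw [h2]
    · rw [Pi.single_eq_of_ne h2, mul_zero, mul_zero]
  let t : Fin n → I := fun k => T (e k)
  let ρ : ∀ k : Fin n, K (t k) →+* ℂ := fun k => (ι.comp (σκ (e k))).toRingHom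
  let φ : MultilinearMap ℂ (fun k => V (t k)) ℂ :=
    (MultilinearMap.mkPiAlgebra ℂ (Fin n) ℂ).compLinearMap (fun k => LinearMap.proj (ρ k))
  have hφ : ∀ v, φ v = ∏ k, v k (ρ k) := by
    intro v
    change (MultilinearMap.mkPiAlgebra ℂ (Fin n) ℂ) (fun k => v k (ρ k)) = _
    rw [MultilinearMap.mkPiAlgebra_apply]
  have hc₀' : c₀ ^ 2 = ∏ k, (((p ^ a (t k) : ℕ)) : ℂ) := by
    rw [hc₀]
    simp only [Q, t]
    push_cast
    rfl
  have hmem := hgen V F hFspan t (2 * r) (by omega) c₀ hc₀' φ (by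
    intro v
    rw [hφ, hφ, ← hNc]
    have h1 : ι N = ∏ k, ρ k (π (t k)) := by
      simp only [N, map_prod]
      rfl
    rw [h1, ← Finset.prod_pow, ← Finset.prod_mul_distrib]
    exact Finset.prod_congr rfl fun k _ => hFpow _ _ _ _)
  -- evaluation at the eigenvectors
  let v₀ : ∀ k, V (t k) := fun k => Pi.single (ρ k) 1
  have hv₀ : φ v₀ = 1 := by
    rw [hφ]
    refine Finset.prod_eq_one fun k _ => ?_
    change (Pi.single (ρ k) (1 : ℂ) : V (t k)) (ρ k) = 1
    rw [Pi.single_eq_same]
  have hFv₀ : ∀ k, F (t k) (v₀ k) = ρ k (π (t k)) • v₀ k := by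
    intro k
    funext τ
    rw [hFapp, Pi.smul_apply, smul_eq_mul]
    by_cases h2 : τ = ρ k
    · rw [h2]
    · have h3 : v₀ k τ = 0 := Pi.single_eq_of_ne h2 1
      rw [h3, mul_zero, mul_zero]
  have hzero : ∀ ψ ∈ {ψ | Exact.IsProductOfPairings V F (fun i => ((p ^ a i : ℕ) : ℂ)) t ψ},
      ψ v₀ = 0 := by
    rintro ψ ⟨τ, B, h1, h2, h3, h4, h5⟩
    by_contra hne
    rw [h5] at hne
    have h6 : ∀ k, k < τ k → B k (v₀ k) (v₀ (τ k)) ≠ 0 := by
      intro k hk
      exact (Finset.prod_ne_zero_iff.1 hne) k (Finset.mem_filter.2 ⟨Finset.mem_univ _, hk⟩)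
    have h7 : ∀ k, k < τ k → ρ k (π (t k)) * ρ (τ k) (π (t (τ k))) = ((p ^ a (t k) : ℕ) : ℂ) := by
      intro k hk
      have h8 := h4 k (v₀ k) (v₀ (τ k))
      rw [hFv₀, hFv₀, map_smul, map_smul, LinearMap.smul_apply, smul_eq_mul, smul_eq_mul,
        ← mul_assoc] at h8
      have h9 := mul_right_cancel₀ (h6 k hk) h8
      exact (mul_comm _ _).trans h9
    -- matched embeddings are complex conjugate to each other
    have h8 : ∀ b b' : (Σ i, K i →ₐ[ℚ] L), b'.1 = b.1 →
        b.2 (π b.1) * b'.2 (π b'.1) = (p : L) ^ a b.1 → F₀ b'.1 b'.2 = - F₀ b.1 b.2 := by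
      rintro ⟨i, τ₁⟩ ⟨i', τ₂⟩ h9 h10
      obtain rfl : i' = i := h9
      change F₀ i' τ₂ = - F₀ i' τ₁
      change τ₁ (π i') * τ₂ (π i') = (p : L) ^ a i' at h10
      have h11 : τ₁ (π i') * act c τ₁ (π i') = (p : L) ^ a i' := by
        rw [act_apply, hcs, ← map_mul, hpa, map_pow, map_natCast]
      have h12 : τ₂ (π i') = act c τ₁ (π i') :=
        mul_left_cancel₀ ((_root_.map_ne_zero τ₁).2 (hπ0 i')) (h10.trans h11.symm)
      rw [emb_inj p (a i') (x i') (π i') e₀ c (hcs i') (s i') (hsx i') (hπ i') _ _ h12, hodd]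
    have h9 : ∀ k, k < τ k → False := by
      intro k hk
      have h10 := h8 (e k).1 (e (τ k)).1 (h3 k) (by
        apply ι.toRingHom.injective
        change ι (σκ (e k) (π (t k)) * σκ (e (τ k)) (π (t (τ k)))) = ι ((p : L) ^ a (t k))
        rw [map_mul, map_pow, map_natCast]
        have h11 := h7 k hk
        push_cast at h11
        exact h11)
      have h11 := hpos (e k)
      have h12 := hpos (e (τ k))
      change 0 < F₀ (e k).1.1 (e k).1.2 at h11
      change 0 < F₀ (e (τ k)).1.1 (e (τ k)).1.2 at h12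
      omega
    rcases lt_trichotomy (e.symm k₁) (τ (e.symm k₁)) with h | h | h
    · exact h9 _ h
    · exact h2 _ h.symm
    · exact h9 (τ (e.symm k₁)) (by rw [h1]; exact h)
  have hφ0 : φ v₀ = 0 := by
    have h1 : ∀ ψ ∈ Submodule.span ℂ
        {ψ | Exact.IsProductOfPairings V F (fun i => ((p ^ a i : ℕ) : ℂ)) t ψ}, ψ v₀ = 0 := by
      intro ψ hψ
      induction hψ using Submodule.span_induction with
      | mem y h => exact hzero y h
      | zero => rfl
      | add y z _ _ hy hz => rw [add_apply, hy, hz, add_zero]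
      | smul b y _ hy => rw [smul_apply, hy, smul_zero]
    exact h1 φ hmem
  rw [hv₀] at hφ0
  exact one_ne_zero hφ0

end Pool.Agent.U625.K3
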